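import Mathlib

set_option autoImplicit false

open MeasureTheory ProbabilityTheory Filter Finset Topology

namespace Pool.Agent.Helper93.QC

/-! Part E1 of the blueprint of helper97 for MP_f3a553_pr: bounds for the law of the environment. -/

private lemma exp_neg_le {t : ℝ} (ht : 0 ≤ t) : Real.exp (-t) ≤ 1 / (1 + t) := by
  rw [Real.exp_neg, one_div]
  apply inv_anti₀ (by linarith)
  have := Real.add_one_le_exp t
  linarith

private lemma exp_sub_le_neg {u : ℝ} (hu : u ≤ 0) : Real.exp u - 1 - u ≤ u ^ 2 := by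
  have h := exp_neg_le (t := -u) (by linarith)
  rw [neg_neg] at h
  have h2 : 1 / (1 + -u) - 1 - u ≤ u ^ 2 := by
    have hp : 0 < 1 + -u := by linarith
    have : 1 / (1 + -u) - 1 - u = u ^ 2 / (1 + -u) := by field_simp; ring
    rw [this]
    apply div_le_self (sq_nonneg u)
    linarith
  linarith

private lemma exp_sub_one_le {u : ℝ} (hu : 0 ≤ u) : Real.exp u - 1 ≤ u * Real.exp u := by
  have h := Real.add_one_le_exp (-u)
  have h2 : (1 - u) * Real.exp u ≤ Real.exp (-u) * Real.exp u :=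
    mul_le_mul_of_nonneg_right (by linarith) (Real.exp_pos u).le
  rw [← Real.exp_add] at h2
  simp at h2
  linarith

private lemma exp_sub_le_pos {u : ℝ} (hu : 0 ≤ u) : Real.exp u - 1 - u ≤ u ^ 2 * Real.exp u := by
  have h := exp_sub_one_le hu
  nlinarith [mul_le_mul_of_nonneg_left h hu]

/-- pointwise second order bound -/
private lemma exp_sub_le {β x : ℝ} (h0 : 0 ≤ β) (h1 : β ≤ 1) :
    Real.exp (β * x) - 1 - β * x ≤ β ^ 2 * (2 * x ^ 2 + 2 * Real.exp (2 * x)) := by
  rcases le_or_gt x 0 with hx | hx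
  · have h := exp_sub_le_neg (u := β * x) (mul_nonpos_of_nonneg_of_nonpos h0 hx)
    have : 0 ≤ β ^ 2 * (x ^ 2 + 2 * Real.exp (2 * x)) := by positivity
    nlinarith
  · have h := exp_sub_le_pos (u := β * x) (mul_nonneg h0 hx.le)
    have h2 : Real.exp (β * x) ≤ Real.exp x := Real.exp_le_exp.2 (by nlinarith)
    have h3 : x ^ 2 ≤ 2 * Real.exp x := by
      have := Real.quadratic_le_exp_of_nonneg hx.le
      nlinarith
    have h4 : x ^ 2 * Real.exp x ≤ 2 * Real.exp (2 * x) := by
      have : Real.exp (2 * x) = Real.exp x * Real.exp x := by rw [← Real.exp_add]; ring_nf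
      rw [this]
      nlinarith [mul_le_mul_of_nonneg_right h3 (Real.exp_pos x).le]
    have h5 : (β * x) ^ 2 * Real.exp (β * x) ≤ β ^ 2 * (2 * Real.exp (2 * x)) := by
      calc (β * x) ^ 2 * Real.exp (β * x) ≤ (β * x) ^ 2 * Real.exp x :=
            mul_le_mul_of_nonneg_left h2 (sq_nonneg _)
        _ = β ^ 2 * (x ^ 2 * Real.exp x) := by ring
        _ ≤ β ^ 2 * (2 * Real.exp (2 * x)) := mul_le_mul_of_nonneg_left h4 (sq_nonneg _)
    have : 0 ≤ β ^ 2 * (2 * x ^ 2) := by positivity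
    linarith

/-- pointwise fourth power bound -/
private lemma exp_sub_pow_le {β x : ℝ} (h0 : 0 ≤ β) (h1 : β ≤ 1) :
    (Real.exp (β * x) - 1) ^ 4 ≤ β ^ 2 * (x ^ 2 + 24 * Real.exp (5 * x)) := by
  rcases le_or_gt x 0 with hx | hx
  · have hu : β * x ≤ 0 := mul_nonpos_of_nonneg_of_nonpos h0 hx
    have h2 : Real.exp (β * x) ≤ 1 := Real.exp_le_one_iff.2 hu
    have h3 := Real.add_one_le_exp (β * x)
    have h4 := Real.exp_pos (β * x)
    have h5 : (Real.exp (β * x) - 1) ^ 2 ≤ 1 := by nlinarith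
    have h6 : (Real.exp (β * x) - 1) ^ 2 ≤ (β * x) ^ 2 := by nlinarith
    have h7 : (Real.exp (β * x) - 1) ^ 4 ≤ (β * x) ^ 2 := by
      have : (Real.exp (β * x) - 1) ^ 4 = (Real.exp (β * x) - 1) ^ 2 * (Real.exp (β * x) - 1) ^ 2 := by ring
      rw [this]
      nlinarith [sq_nonneg (Real.exp (β * x) - 1)]
    have : 0 ≤ β ^ 2 * (24 * Real.exp (5 * x)) := by positivity
    nlinarith
  · have hu : 0 ≤ β * x := mul_nonneg h0 hx.le
    have h2 := exp_sub_one_le hu
    have h3 : 0 ≤ Real.exp (β * x) - 1 := by linarith [Real.one_le_exp hu]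
    have h4 : Real.exp (β * x) ≤ Real.exp x := Real.exp_le_exp.2 (by nlinarith)
    have h5 : (Real.exp (β * x) - 1) ^ 4 ≤ (β * x * Real.exp x) ^ 4 := by
      apply pow_le_pow_left₀ h3
      exact h2.trans (mul_le_mul_of_nonneg_left h4 hu)
    have h6 : x ^ 4 ≤ 24 * Real.exp x := by
      have := Real.pow_div_factorial_le_exp x hx.le 4
      have h24 : ((4 : ℕ).factorial : ℝ) = 24 := by norm_num [Nat.factorial]
      rw [h24, div_le_iff₀ (by norm_num)] at this
      linarith
    have h7 : β ^ 4 ≤ β ^ 2 := by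
      have : β ^ 2 ≤ 1 := by nlinarith
      nlinarith [sq_nonneg β]
    have e5 : Real.exp (5 * x) = Real.exp x * Real.exp x ^ 4 := by
      rw [← Real.exp_nat_mul, ← Real.exp_add]; congr 1; push_cast; ring
    calc (Real.exp (β * x) - 1) ^ 4 ≤ (β * x * Real.exp x) ^ 4 := h5
      _ = β ^ 4 * (x ^ 4 * Real.exp x ^ 4) := by ring
      _ ≤ β ^ 2 * (24 * Real.exp x * Real.exp x ^ 4) := by
          apply mul_le_mul h7 _ (by positivity) (by positivity)
          exact mul_le_mul_of_nonneg_right h6 (by positivity)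
      _ = β ^ 2 * (24 * Real.exp (5 * x)) := by rw [e5]; ring
      _ ≤ β ^ 2 * (x ^ 2 + 24 * Real.exp (5 * x)) := by
          apply mul_le_mul_of_nonneg_left _ (sq_nonneg _)
          linarith [sq_nonneg x]

theorem law_bounds (μ : Measure ℝ) [IsProbabilityMeasure μ] (h0 : ∫ x, x ∂μ = 0)
    (h1 : ∫ x, x ^ 2 ∂μ = 1) (hi : ∀ β : ℝ, 0 ≤ β → Integrable (fun x => Real.exp (β * x)) μ) :
    ∃ C s0 : ℝ, 0 < C ∧ 0 < s0 ∧ ∀ β : ℝ, 0 ≤ β →
      Real.exp (Real.log (∫ x, Real.exp (2 * β * x) ∂μ) - 2 * Real.log (∫ x, Real.exp (β * x) ∂μ)) - 1 ≤ s0 →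
      ∫ x, |Real.exp (β * x - Real.log (∫ x, Real.exp (β * x) ∂μ)) - 1| ^ 3 ∂μ ≤
        C * (Real.exp (Real.log (∫ x, Real.exp (2 * β * x) ∂μ) - 2 * Real.log (∫ x, Real.exp (β * x) ∂μ)) - 1) ∧
      ∫ x, |Real.exp (β * x - Real.log (∫ x, Real.exp (β * x) ∂μ)) - 1| ^ 4 ∂μ ≤
        C * (Real.exp (Real.log (∫ x, Real.exp (2 * β * x) ∂μ) - 2 * Real.log (∫ x, Real.exp (β * x) ∂μ)) - 1) := by
  -- integrability of x^2 and x
  have ix2 : Integrable (fun x : ℝ => x ^ 2) μ := by
    by_contra h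
    rw [integral_undef h] at h1
    exact zero_ne_one h1
  have ix : Integrable (fun x : ℝ => x) μ := by
    refine Integrable.mono' (ix2.add (integrable_const (1 : ℝ))) measurable_id.aestronglyMeasurable ?_
    refine Eventually.of_forall fun x => ?_
    simp only [Real.norm_eq_abs, Pi.add_apply]
    rw [← sq_abs]
    nlinarith [abs_nonneg x, sq_nonneg (|x| - 1)]
  -- a part of the mass on the negative side
  obtain ⟨a, p, ha, hp, hap⟩ : ∃ a p : ℝ, 0 < a ∧ 0 < p ∧ p ≤ μ.real (Set.Iic (-a)) := by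
    have hneg : μ (Set.Iio (0 : ℝ)) ≠ 0 := by
      intro hz
      have hae : ∀ᵐ x ∂μ, (0 : ℝ) ≤ x := by
        rw [ae_iff]
        convert hz using 2
        ext x; simp
      have h2 : (fun x : ℝ => x) =ᵐ[μ] 0 := (integral_eq_zero_iff_of_nonneg_ae hae ix).1 h0
      have h3 : ∫ x, x ^ 2 ∂μ = 0 := by
        rw [integral_congr_ae (g := fun _ => (0 : ℝ))]
        · simp
        · filter_upwards [h2] with x hx
          simp at hx
          simp [hx]
      rw [h3] at h1
      exact zero_ne_one h1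
    by_contra hcon
    push Not at hcon
    apply hneg
    have hU : Set.Iio (0 : ℝ) = ⋃ n : ℕ, Set.Iic (-(1 / ((n : ℝ) + 1))) := by
      ext x
      simp only [Set.mem_Iio, Set.mem_iUnion, Set.mem_Iic]
      constructor
      · intro hx
        obtain ⟨n, hn⟩ := exists_nat_one_div_lt (show (0 : ℝ) < -x by linarith)
        exact ⟨n, by linarith⟩
      · rintro ⟨n, hn⟩
        have : (0 : ℝ) < 1 / ((n : ℝ) + 1) := by positivity
        linarith
    rw [hU, measure_iUnion_null_iff]
    intro n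
    by_contra hne
    have hpos : 0 < μ.real (Set.Iic (-(1 / ((n : ℝ) + 1)))) :=
      ENNReal.toReal_pos hne (measure_ne_top _ _)
    have := hcon (1 / ((n : ℝ) + 1)) _ (by positivity) hpos
    exact lt_irrefl _ this
  set M : ℝ → ℝ := fun β => ∫ x, Real.exp (β * x) ∂μ with hM
  have hM1 : ∀ β : ℝ, 0 ≤ β → 1 ≤ M β := by
    intro β hβ
    have h : ∫ x, (1 + β * x) ∂μ ≤ M β := by
      apply integral_mono ((integrable_const _).add (ix.const_mul β)) (hi β hβ)
      intro x
      have := Real.add_one_le_exp (β * x)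
      simp only [Pi.add_apply]
      linarith
    rw [integral_add (integrable_const _) (ix.const_mul β), integral_const_mul, h0] at h
    simpa using h
  have hMle : ∀ β : ℝ, 0 ≤ β → β ≤ 1 → M β - 1 ≤ β ^ 2 * (2 + 2 * M 2) := by
    intro β hβ hβ1
    have j1 : Integrable (fun x => Real.exp (β * x) - 1) μ := (hi β hβ).sub (integrable_const _)
    have e : M β - 1 = ∫ x, (Real.exp (β * x) - 1 - β * x) ∂μ := by
      rw [integral_sub j1 (ix.const_mul β),
        integral_sub (hi β hβ) (integrable_const _), integral_const_mul, h0]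
      simp [hM]
    rw [e]
    have e2 : β ^ 2 * (2 + 2 * M 2) = ∫ x, (β ^ 2 * (2 * x ^ 2 + 2 * Real.exp (2 * x))) ∂μ := by
      rw [integral_const_mul, integral_add (ix2.const_mul 2) ((hi 2 (by norm_num)).const_mul 2),
        integral_const_mul, integral_const_mul, h1]
      simp [hM]
    rw [e2]
    have j2 : Integrable (fun x => Real.exp (β * x) - 1 - β * x) μ := j1.sub (ix.const_mul β)
    have j3 : Integrable (fun x => β ^ 2 * (2 * x ^ 2 + 2 * Real.exp (2 * x))) μ :=
      ((ix2.const_mul 2).add ((hi 2 (by norm_num)).const_mul 2)).const_mul _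
    exact integral_mono j2 j3 fun x => exp_sub_le hβ hβ1
  -- the second moment
  have hs : ∀ β : ℝ, 0 ≤ β →
      Real.exp (Real.log (∫ x, Real.exp (2 * β * x) ∂μ) - 2 * Real.log (∫ x, Real.exp (β * x) ∂μ)) - 1 =
        ∫ x, (Real.exp (β * x) / M β - 1) ^ 2 ∂μ := by
    intro β hβ
    have hb := hM1 β hβ
    have hb2 := hM1 (2 * β) (by linarith)
    have hMb : ∫ x, Real.exp (β * x) ∂μ = M β := rfl
    have hM2 : ∫ x, Real.exp (2 * β * x) ∂μ = M (2 * β) := rfl
    rw [hMb, hM2, Real.exp_sub, Real.exp_log (by linarith),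
      show (2 : ℝ) * Real.log (M β) = Real.log (M β) + Real.log (M β) by ring, Real.exp_add,
      Real.exp_log (by linarith)]
    have e : ∀ x : ℝ, (Real.exp (β * x) / M β - 1) ^ 2 =
        Real.exp (2 * β * x) * (1 / (M β * M β)) - 2 / M β * Real.exp (β * x) + 1 := by
      intro x
      have : Real.exp (2 * β * x) = Real.exp (β * x) * Real.exp (β * x) := by
        rw [← Real.exp_add]; ring_nf
      rw [this]
      field_simp
      ring
    simp_rw [e]
    have j1 : Integrable (fun x => Real.exp (2 * β * x) * (1 / (M β * M β)) - 2 / M β * Real.exp (β * x)) μ :=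
      ((hi (2 * β) (by linarith)).mul_const _).sub ((hi β hβ).const_mul _)
    rw [integral_add j1 (integrable_const _),
      integral_sub ((hi (2 * β) (by linarith)).mul_const _) ((hi β hβ).const_mul _),
      integral_mul_const, integral_const_mul, hMb, hM2]
    simp only [integral_const, smul_eq_mul, mul_one, probReal_univ]
    field_simp
    ring
  have hZ : ∀ β : ℝ, 0 ≤ β → ∀ x, Real.exp (β * x - Real.log (∫ x, Real.exp (β * x) ∂μ)) =
      Real.exp (β * x) / M β := by
    intro β hβ x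
    have hb := hM1 β hβ
    have hMb : ∫ x, Real.exp (β * x) ∂μ = M β := rfl
    rw [hMb, Real.exp_sub, Real.exp_log (by linarith)]
  have ik : ∀ (k : ℕ) (β : ℝ), 0 ≤ β → Integrable (fun x => Real.exp (β * x) ^ k) μ := by
    intro k β hβ
    have : (fun x => Real.exp (β * x) ^ k) = fun x => Real.exp ((k * β) * x) := by
      ext x; rw [← Real.exp_nat_mul]; ring_nf
    rw [this]
    exact hi _ (by positivity)
  have ixi : ∀ β : ℝ, 0 ≤ β → Integrable (fun x => (Real.exp (β * x) / M β - 1) ^ 2) μ ∧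
      Integrable (fun x => (Real.exp (β * x) / M β - 1) ^ 4) μ ∧
      Integrable (fun x => (Real.exp (β * x) - 1) ^ 4) μ := by
    intro β hβ
    refine ⟨?_, ?_, ?_⟩
    · have : (fun x => (Real.exp (β * x) / M β - 1) ^ 2) = fun x =>
        Real.exp (β * x) ^ 2 * (1 / M β) ^ 2 - 2 * (1 / M β) * Real.exp (β * x) ^ 1 + 1 := by
        ext x; ring
      rw [this]
      exact (((ik 2 β hβ).mul_const _).sub ((ik 1 β hβ).const_mul _)).add (integrable_const _)
    · have : (fun x => (Real.exp (β * x) / M β - 1) ^ 4) = fun x =>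
        Real.exp (β * x) ^ 4 * (1 / M β) ^ 4 - 4 * (1 / M β) ^ 3 * Real.exp (β * x) ^ 3 +
          6 * (1 / M β) ^ 2 * Real.exp (β * x) ^ 2 - 4 * (1 / M β) * Real.exp (β * x) ^ 1 + 1 := by
        ext x; ring
      rw [this]
      exact (((((ik 4 β hβ).mul_const _).sub ((ik 3 β hβ).const_mul _)).add ((ik 2 β hβ).const_mul _)).sub
        ((ik 1 β hβ).const_mul _)).add (integrable_const _)
    · have : (fun x => (Real.exp (β * x) - 1) ^ 4) = fun x =>
        Real.exp (β * x) ^ 4 - 4 * Real.exp (β * x) ^ 3 +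
          6 * Real.exp (β * x) ^ 2 - 4 * Real.exp (β * x) ^ 1 + 1 := by
        ext x; ring
      rw [this]
      exact (((((ik 4 β hβ)).sub ((ik 3 β hβ).const_mul _)).add ((ik 2 β hβ).const_mul _)).sub
        ((ik 1 β hβ).const_mul _)).add (integrable_const _)
  -- lower bound for the second moment
  have hlow : ∀ β : ℝ, 0 ≤ β → p * (β * a / (1 + β * a)) ^ 2 ≤ ∫ x, (Real.exp (β * x) / M β - 1) ^ 2 ∂μ := by
    intro β hβ
    have hb := hM1 β hβ
    have hba : 0 ≤ β * a := by positivity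
    have hS : MeasurableSet (Set.Iic (-a)) := measurableSet_Iic
    have h2 : ∫ x in Set.Iic (-a), (β * a / (1 + β * a)) ^ 2 ∂μ ≤
        ∫ x in Set.Iic (-a), (Real.exp (β * x) / M β - 1) ^ 2 ∂μ := by
      apply setIntegral_mono_on (integrable_const _).integrableOn (ixi β hβ).1.integrableOn hS
      intro x hx
      simp only [Set.mem_Iic] at hx
      have h3 : Real.exp (β * x) / M β ≤ 1 / (1 + β * a) := by
        calc Real.exp (β * x) / M β ≤ Real.exp (β * x) := div_le_self (Real.exp_pos _).le hb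
          _ ≤ Real.exp (-(β * a)) := Real.exp_le_exp.2 (by nlinarith)
          _ ≤ 1 / (1 + β * a) := exp_neg_le hba
      have h4 : β * a / (1 + β * a) = 1 - 1 / (1 + β * a) := by
        field_simp
        ring
      have h5 : 0 ≤ β * a / (1 + β * a) := by positivity
      have h6 : β * a / (1 + β * a) ≤ 1 - Real.exp (β * x) / M β := by rw [h4]; linarith
      calc (β * a / (1 + β * a)) ^ 2 ≤ (1 - Real.exp (β * x) / M β) ^ 2 := pow_le_pow_left₀ h5 h6 2
        _ = (Real.exp (β * x) / M β - 1) ^ 2 := by ring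
    have h3 : ∫ x in Set.Iic (-a), (Real.exp (β * x) / M β - 1) ^ 2 ∂μ ≤
        ∫ x, (Real.exp (β * x) / M β - 1) ^ 2 ∂μ :=
      setIntegral_le_integral (ixi β hβ).1 (Eventually.of_forall fun x => sq_nonneg _)
    have h4 : ∫ x in Set.Iic (-a), (β * a / (1 + β * a)) ^ 2 ∂μ = μ.real (Set.Iic (-a)) * (β * a / (1 + β * a)) ^ 2 := by
      rw [setIntegral_const]; simp
    rw [h4] at h2
    have h5 : p * (β * a / (1 + β * a)) ^ 2 ≤ μ.real (Set.Iic (-a)) * (β * a / (1 + β * a)) ^ 2 :=
      mul_le_mul_of_nonneg_right hap (sq_nonneg _)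
    linarith
  -- constants
  set K : ℝ := 8 * (1 + 24 * M 5) + 8 * (2 + 2 * M 2) with hK
  have hK0 : 0 < K := by
    have := hM1 5 (by norm_num)
    have := hM1 2 (by norm_num)
    rw [hK]; linarith
  have hup : ∀ β : ℝ, 0 ≤ β → β ≤ 1 → ∫ x, (Real.exp (β * x) / M β - 1) ^ 4 ∂μ ≤ K * β ^ 2 := by
    intro β hβ hβ1
    have hb := hM1 β hβ
    have hb' := hMle β hβ hβ1
    have hbpos : 0 < M β := by linarith
    have hpt : ∀ x : ℝ, (Real.exp (β * x) / M β - 1) ^ 4 ≤
        8 * (β ^ 2 * (x ^ 2 + 24 * Real.exp (5 * x))) + 8 * (β ^ 2 * (2 + 2 * M 2)) := by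
      intro x
      have e : Real.exp (β * x) / M β - 1 = (Real.exp (β * x) - 1) / M β + (1 / M β - 1) := by
        field_simp
        ring
      rw [e]
      have h8 : ∀ u w : ℝ, (u + w) ^ 4 ≤ 8 * (u ^ 4 + w ^ 4) := by
        intro u w
        nlinarith [sq_nonneg (u - w), sq_nonneg (u + w), sq_nonneg (u ^ 2 - w ^ 2), mul_nonneg (sq_nonneg (u - w)) (sq_nonneg (u + w)), sq_nonneg (u * (u - w)), sq_nonneg (w * (u - w)), sq_nonneg ((u - w) ^ 2)]
      refine (h8 _ _).trans ?_
      have h9 : ((Real.exp (β * x) - 1) / M β) ^ 4 ≤ (Real.exp (β * x) - 1) ^ 4 := by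
        rw [div_pow]
        apply div_le_self (by positivity)
        exact one_le_pow₀ hb
      have h10 : (1 / M β - 1) ^ 4 ≤ M β - 1 := by
        have h11 : 0 ≤ 1 - 1 / M β := by
          rw [sub_nonneg, div_le_one hbpos]; exact hb
        have h12 : 1 - 1 / M β ≤ 1 := by
          have : 0 ≤ 1 / M β := by positivity
          linarith
        have h13 : 1 - 1 / M β ≤ M β - 1 := by
          have : 1 - 1 / M β = (M β - 1) / M β := by field_simp
          rw [this]
          apply div_le_self (by linarith) hb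
        calc (1 / M β - 1) ^ 4 = (1 - 1 / M β) ^ 4 := by ring
          _ ≤ (1 - 1 / M β) ^ 1 := pow_le_pow_of_le_one h11 h12 (by norm_num)
          _ = 1 - 1 / M β := pow_one _
          _ ≤ M β - 1 := h13
      have h14 := exp_sub_pow_le (x := x) hβ hβ1
      linarith
    have i2 : Integrable (fun x => 8 * (β ^ 2 * (x ^ 2 + 24 * Real.exp (5 * x))) + 8 * (β ^ 2 * (2 + 2 * M 2))) μ :=
      (((ix2.add ((hi 5 (by norm_num)).const_mul 24)).const_mul _).const_mul _).add (integrable_const _)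
    refine (integral_mono (ixi β hβ).2.1 i2 hpt).trans ?_
    have j1 : Integrable (fun x => 8 * (β ^ 2 * (x ^ 2 + 24 * Real.exp (5 * x)))) μ :=
      ((ix2.add ((hi 5 (by norm_num)).const_mul 24)).const_mul _).const_mul _
    rw [integral_add j1 (integrable_const _),
      integral_const_mul, integral_const_mul, integral_add ix2 ((hi 5 (by norm_num)).const_mul 24), h1,
      integral_const_mul]
    have hM5 : ∫ x, Real.exp (5 * x) ∂μ = M 5 := rfl
    rw [hM5]
    simp only [integral_const, smul_eq_mul, probReal_univ, one_mul]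
    rw [hK]
    nlinarith
  refine ⟨K * ((1 + a) ^ 2 / (p * a ^ 2)) + 1, p * (a / (1 + a)) ^ 2 / 2, by positivity, by positivity, ?_⟩
  intro β hβ hsb
  rw [hs β hβ] at hsb ⊢
  simp_rw [hZ β hβ]
  have hβ1 : β ≤ 1 := by
    by_contra hcon
    push Not at hcon
    have h2 := hlow β hβ
    have h3 : a / (1 + a) ≤ β * a / (1 + β * a) := by
      rw [div_le_div_iff₀ (by linarith) (by positivity)]
      nlinarith
    have h4 : (a / (1 + a)) ^ 2 ≤ (β * a / (1 + β * a)) ^ 2 := pow_le_pow_left₀ (by positivity) h3 2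
    have h5 : p * (a / (1 + a)) ^ 2 ≤ p * (β * a / (1 + β * a)) ^ 2 := mul_le_mul_of_nonneg_left h4 hp.le
    have h6 : 0 < p * (a / (1 + a)) ^ 2 := by positivity
    linarith
  set S : ℝ := ∫ x, (Real.exp (β * x) / M β - 1) ^ 2 ∂μ with hS
  have hS0 : 0 ≤ S := integral_nonneg fun x => sq_nonneg _
  have hβS : β ^ 2 ≤ (1 + a) ^ 2 / (p * a ^ 2) * S := by
    have h2 := hlow β hβ
    have h3 : β * a / (1 + a) ≤ β * a / (1 + β * a) := by
      apply div_le_div_of_nonneg_left (by positivity) (by positivity)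
      nlinarith
    have h4 : (β * a / (1 + a)) ^ 2 ≤ (β * a / (1 + β * a)) ^ 2 := pow_le_pow_left₀ (by positivity) h3 2
    have h5 : p * (β * a / (1 + a)) ^ 2 ≤ S := (mul_le_mul_of_nonneg_left h4 hp.le).trans h2
    have h6 : β ^ 2 = (1 + a) ^ 2 / (p * a ^ 2) * (p * (β * a / (1 + a)) ^ 2) := by
      field_simp
    rw [h6]
    exact mul_le_mul_of_nonneg_left h5 (by positivity)
  have h4 : ∫ x, (Real.exp (β * x) / M β - 1) ^ 4 ∂μ ≤ K * ((1 + a) ^ 2 / (p * a ^ 2)) * S := by
    calc ∫ x, (Real.exp (β * x) / M β - 1) ^ 4 ∂μ ≤ K * β ^ 2 := hup β hβ hβ1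
      _ ≤ K * ((1 + a) ^ 2 / (p * a ^ 2) * S) := mul_le_mul_of_nonneg_left hβS hK0.le
      _ = _ := by ring
  constructor
  · have h3 : ∫ x, |Real.exp (β * x) / M β - 1| ^ 3 ∂μ ≤
        ∫ x, ((Real.exp (β * x) / M β - 1) ^ 2 + (Real.exp (β * x) / M β - 1) ^ 4) ∂μ := by
      have j1 : Integrable (fun x => (Real.exp (β * x) / M β - 1) ^ 2 + (Real.exp (β * x) / M β - 1) ^ 4) μ :=
        (ixi β hβ).1.add (ixi β hβ).2.1
      apply integral_mono_of_nonneg (Eventually.of_forall fun x => by positivity) j1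
      refine Eventually.of_forall fun x => ?_
      simp only
      rw [← sq_abs (Real.exp (β * x) / M β - 1), show (Real.exp (β * x) / M β - 1) ^ 4 = |Real.exp (β * x) / M β - 1| ^ 4 by
        rw [show (4 : ℕ) = 2 * 2 by norm_num, pow_mul, pow_mul, sq_abs]]
      set u := |Real.exp (β * x) / M β - 1|
      have hu : 0 ≤ u := abs_nonneg _
      nlinarith [sq_nonneg (u - 1), sq_nonneg (u ^ 2 - u), sq_nonneg u, mul_nonneg hu hu]
    rw [integral_add (ixi β hβ).1 (ixi β hβ).2.1] at h3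
    nlinarith
  · have h5 : ∀ x : ℝ, |Real.exp (β * x) / M β - 1| ^ 4 = (Real.exp (β * x) / M β - 1) ^ 4 := by
      intro x
      rw [show (4 : ℕ) = 2 * 2 by norm_num, pow_mul, pow_mul, sq_abs]
    simp_rw [h5]
    nlinarith

end Pool.Agent.Helper93.QC
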